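import Pool.Agent.N603.DB.VH

/-!
# Points with complex multiplication and best approximations

Let `F_j` be matrices of analytic functions on a connected open subset `U` of `ℂ ^ X`, for example bases of the pieces
of the Hodge filtration of a variation of Hodge structure in a flat basis, and `Γ` the monodromy group. Let `y` be a
real point of `U`. We consider the rational points `p / q` with `|q y_j - p_j| ≤ C q^(-τ)` for all `j`;
for `C = 1` and `τ = 1 / |X|` these include all best simultaneous approximations of `y`. We show: for all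
`y` outside a set of Hausdorff dimension at most `|X| / (1 + τ)`, all number fields `K` and all `k`:
NONE of the points `p / q`, apart from finitely many, is a point with complex multiplication of size at most `q ^ k`
over `K`, and none has an endomorphism of this size some conjugate of which under the monodromy is not an
endomorphism. For `τ = 1 / |X|` the bound is `|X|² / (|X| + 1) < |X|`, so that this is the case for almost all real
points `y`. More generally we approximate complex points by points with common denominators over a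
number field `L` (for an imaginary quadratic field `L` almost all complex points have infinitely many approximations
of this quality, too).

Proof. The points of height at most `T` with such an endomorphism lie on `O(T ^ ε)` hypersurfaces of bounded degree,
for every `ε > 0` (starting files `Pool.Agent.Y890.VH`); for a fixed denominator these contain
`O(T^(|X| - 1 + ε))` rational points, hence there are `O(T^(|X| + ε))` exceptional points with common denominators, and
the `y` with infinitely many approximations among them are covered by few small balls.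
-/

set_option autoImplicit false
set_option linter.unusedSectionVars false

open NumberField

namespace Pool.Agent.Results.MP_2794d1_ag.BestApproximations

open Pool.Agent Pool.Agent.Y890.MV Pool.Agent.Y890.VH

/-- the coordinates of `s` are `a j / b` with integers `a j`, `b` of `L` all of whose conjugates have absolute value at
most `T` -/
def CommonDen (L : Type) [Field L] [NumberField L] {X : Type} (T : ℝ) (s : X → L) : Prop :=
  ∃ (b : 𝓞 L) (a : X → 𝓞 L), b ≠ 0 ∧ (∀ φ : L →+* ℂ, ‖φ b‖ ≤ T ∧ ∀ j, ‖φ (a j)‖ ≤ T) ∧
    ∀ j, s j = (a j : L) / (b : L)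

section

variable {H J : Type} [Fintype H] [DecidableEq H] [Fintype J] [DecidableEq J] {r : J → ℕ}
  {X : Type} [Fintype X] [DecidableEq X]

/-- there is a matrix `M` with entries in the integers of `K`, all conjugates of which are at most `T ^ k`, which
preserves the column spaces of all `F_j(x)`, but not those of all `γ F_j(x)`, `γ ∈ Γ` -/
def ExtraEnd (f : Sg H J r → (X → ℂ) → ℂ) (Γ : Subgroup (GL H ℂ)) (K : Type) [Field K] [NumberField K]
    (io : K →+* ℂ) (k : ℕ) (T : ℝ) (x : X → ℂ) : Prop :=
  ∃ M : Matrix H H (𝓞 K), (∀ i j (φ : K →+* ℂ), ‖φ (M i j : K)‖ ≤ T ^ k) ∧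
    Pres (fun y => f y x) (Matrix.of fun i j => io (M i j : K)) ∧
    ∃ γ ∈ Γ, ¬ Pres (act (γ : Matrix H H ℂ) fun y => f y x) (Matrix.of fun i j => io (M i j : K))

/-- there is such a matrix with distinct eigenvalues which preserves the column spaces of all `F_j(x)` -/
def SmallCM (f : Sg H J r → (X → ℂ) → ℂ) (K : Type) [Field K] [NumberField K]
    (io : K →+* ℂ) (k : ℕ) (T : ℝ) (x : X → ℂ) : Prop :=
  ∃ M : Matrix H H (𝓞 K), (∀ i j (φ : K →+* ℂ), ‖φ (M i j : K)‖ ≤ T ^ k) ∧
    (Matrix.of fun i j => io (M i j : K) : Matrix H H ℂ).charpoly.Separable ∧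
    Pres (fun y => f y x) (Matrix.of fun i j => io (M i j : K))

end

/-- **Complex multiplication and best approximations.** Let `U` be a nonempty connected open subset of
`ℂ ^ X`, and `F_j`, `j` in a finite set `J`, matrices of analytic functions on `U` with rows
indexed by `H` and `r j` columns (`f ⟨j, (m, c)⟩` is the entry `(m, c)` of `F_j`; e.g. bases of the pieces of the
Hodge filtration in a flat basis). Assume that the elements of the field generated by `x` and the entries which are
algebraic over `ℂ(x)` are in `ℂ(x)` (`RegularM`), and let `Γ` be a subgroup of `GL_H(ℂ)` such that all polynomial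
relations over `ℂ[x]` between the entries of the `F_j` on `U` are relations between the entries of the matrices
`γ F_j`, for all `γ ∈ Γ` (`MonInv`; e.g. the monodromy group).
(1) For every `τ > 0` there is a set `E` in `ℝ ^ X` of Hausdorff dimension at most `|X| / (1 + τ)` such that for all
`y` outside `E` with `y ∈ U`, all number fields `K` in `ℂ`, all `k`, `C` and all large `q`: for ALL
integers `p j` with `|q y j - p j| ≤ C q^(-τ)` the point `p / q` is in `U`, there is no matrix as in `ExtraEnd`, and if
`Γ` is infinite and for every `x ∈ U` only finitely many elements of `Γ` preserve the column spaces of all `F_j(x)`,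
then `p / q` is no point as in `SmallCM`, for the bound `q ^ k`.
(2) For every number field `L` with an embedding in `ℂ` and `τ > 0` there is a set `E` in `ℂ ^ X` of Hausdorff
dimension at most `[L : ℚ] |X| / τ` such that for all `ξ` in `U` outside `E`, all number fields `K` in `ℂ` which
contain `L`, all `k`, `C` and all large `T` the same holds for all points `s` with coordinates in `L` with a common
denominator, of height at most `T`, at distance at most `C T ^ (-τ)` from `ξ`, for the bound `T ^ k`. -/
theorem result (X H J : Type) [Fintype X] [DecidableEq X] [Nonempty X] [Fintype H] [DecidableEq H] [Fintype J]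
    [DecidableEq J] (r : J → ℕ) (U : Set (X → ℂ)) (f : Sg H J r → (X → ℂ) → ℂ)
    (hU : IsPreconnected U) (hUo : IsOpen U) (hne : U.Nonempty) (hf : ∀ i, AnalyticOnNhd ℂ (f i) U)
    (hreg : RegularM U f) (Γ : Subgroup (GL H ℂ)) (hΓ : ∀ γ ∈ Γ, MonInv U f (γ : Matrix H H ℂ)) :
    (∀ τ : ℝ, 0 < τ → ∃ E : Set (X → ℝ), dimH E ≤ ENNReal.ofReal ((Fintype.card X : ℝ) / (1 + τ)) ∧
      ∀ y : X → ℝ, y ∉ E → (fun j => (y j : ℂ)) ∈ U → ∀ (K : IntermediateField ℚ ℂ) [NumberField K],
        ∀ (k : ℕ) (C : ℝ), ∃ Q : ℕ, ∀ q : ℕ, Q ≤ q → ∀ p : X → ℤ,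
          (∀ j, |(q : ℝ) * y j - p j| ≤ C * (q : ℝ) ^ (-τ)) →
            (fun j => (p j : ℂ) / q) ∈ U ∧
            ¬ ExtraEnd f Γ K (algebraMap K ℂ) k (q : ℝ) (fun j => (p j : ℂ) / q) ∧
            (Infinite Γ → (∀ x ∈ U, (Stab Γ fun y => f y x).Finite) →
              ¬ SmallCM f K (algebraMap K ℂ) k (q : ℝ) (fun j => (p j : ℂ) / q))) ∧
    ∀ (L : Type) [Field L] [NumberField L] (io : L →+* ℂ) (τ : ℝ), 0 < τ → ∃ E : Set (X → ℂ),
      dimH E ≤ ENNReal.ofReal ((Module.finrank ℚ L : ℝ) * (Fintype.card X : ℝ) / τ) ∧
      ∀ ξ ∈ U, ξ ∉ E → ∀ (K : IntermediateField ℚ ℂ) [NumberField K], (∀ x, io x ∈ K) →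
        ∀ (k : ℕ) (C : ℝ), ∃ T₁ : ℝ, ∀ T : ℝ, T₁ ≤ T → ∀ s : X → L,
          CommonDen L T s → (∀ j, ‖ξ j - io (s j)‖ ≤ C * T ^ (-τ)) →
            (fun j => io (s j)) ∈ U ∧ ¬ ExtraEnd f Γ K (algebraMap K ℂ) k T (fun j => io (s j)) ∧
            (Infinite Γ → (∀ x ∈ U, (Stab Γ fun y => f y x).Finite) →
              ¬ SmallCM f K (algebraMap K ℂ) k T (fun j => io (s j))) := by
  have hcov := N603.DB.vh_cov hU hUo hne hf hreg Γ hΓ
  refine ⟨fun τ hτ => ?_, fun L _ _ io τ hτ => ?_⟩
  · obtain ⟨E, hE, h⟩ := hcov.near_real τ hτ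
    refine ⟨E, hE, fun y hy hyU K _ k C => ?_⟩
    obtain ⟨Q, hQ⟩ := h y hy hyU K k C
    refine ⟨Q, fun q hq p hp => ?_⟩
    obtain ⟨h1, h2⟩ := hQ q hq p hp
    exact ⟨h1, h2, fun hinf hst hcm => h2 (N603.DB.cm_extra Γ hinf hst K _ k _ _ h1 hcm)⟩
  · obtain ⟨E, hE, h⟩ := hcov.near_cd L io τ hτ
    refine ⟨E, hE, fun ξ hξ hξE K _ hLK k C => ?_⟩
    obtain ⟨T₁, hT₁⟩ := h ξ hξ hξE K hLK k C
    refine ⟨T₁, fun T hT s hs hd => ?_⟩
    obtain ⟨h1, h2⟩ := hT₁ T hT s hs hd
    exact ⟨h1, h2, fun hinf hst hcm => h2 (N603.DB.cm_extra Γ hinf hst K _ k _ _ h1 hcm)⟩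

end Pool.Agent.Results.MP_2794d1_ag.BestApproximations
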