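import Pool.Agent.N603.DB.VH

/-!
# Points with complex multiplication and additional endomorphisms near a given point

Let `F_j` be matrices of analytic functions on a connected open subset `U` of `ℂ ^ X`, for example bases of the pieces
of the Hodge filtration of a variation of Hodge structure in a flat basis, and `Γ` the monodromy group. We show that
for all points `ξ` of `U` outside a set of Hausdorff dimension at most `2 [L : ℚ] (|X| - 1) / τ` there are NO points
with complex multiplication of size at most `T ^ k` among the points with coordinates in the number field `L` of height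
at most `T` at distance at most `C T ^ (-τ)` from `ξ`, for all large `T`, and no points with an endomorphism of this
size some conjugate of which under the monodromy is not an endomorphism. The entries of the endomorphisms may be in
any number field `K` which contains `L`. If there is one parameter, then one set of Hausdorff dimension zero suffices
for all exponents `τ > 0`.

If the points with complex multiplication are dense in the base (as on Shimura varieties) then every `ξ` is the limit
of a sequence of such points; the theorem says that they approach almost all points `ξ` only slowly, in terms of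
their height (if their complex multiplication is of polynomial size).

Proof. The points of height at most `T` with such an endomorphism lie on `O(T ^ ε)` hypersurfaces of bounded degree,
for every `ε > 0` (starting files `Pool.Agent.Y890.VH`); the `ξ` which are near infinitely many of these points
are covered by few small balls. There are only countably many number fields in `ℂ`.
-/

set_option autoImplicit false
set_option linter.unusedSectionVars false

open NumberField

namespace Pool.Agent.Results.MP_2794d1_ag.NearEveryPoint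

open Pool.Agent Pool.Agent.Y890.MV Pool.Agent.Y890.VH

section

variable {H J : Type} [Fintype H] [DecidableEq H] [Fintype J] [DecidableEq J] {r : J → ℕ}
  {X : Type} [Fintype X] [DecidableEq X]

/-- there is a matrix `M` with entries in the integers of `K`, all conjugates of which are at most `T ^ k`, which
preserves the column spaces of all `F_j(x)`, but not those of all `γ F_j(x)`, `γ ∈ Γ` -/
def ExtraEnd (f : Sg H J r → (X → ℂ) → ℂ) (Γ : Subgroup (GL H ℂ)) (K : Type) [Field K] [NumberField K]
    (io : K →+* ℂ) (k : ℕ) (T : ℝ) (x : X → ℂ) : Prop :=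
  ∃ M : Matrix H H (𝓞 K), (∀ i j (φ : K →+* ℂ), ‖φ (M i j : K)‖ ≤ T ^ k) ∧
    Pres (fun y => f y x) (Matrix.of fun i j => io (M i j : K)) ∧
    ∃ γ ∈ Γ, ¬ Pres (act (γ : Matrix H H ℂ) fun y => f y x) (Matrix.of fun i j => io (M i j : K))

/-- there is such a matrix with distinct eigenvalues which preserves the column spaces of all `F_j(x)` -/
def SmallCM (f : Sg H J r → (X → ℂ) → ℂ) (K : Type) [Field K] [NumberField K]
    (io : K →+* ℂ) (k : ℕ) (T : ℝ) (x : X → ℂ) : Prop :=
  ∃ M : Matrix H H (𝓞 K), (∀ i j (φ : K →+* ℂ), ‖φ (M i j : K)‖ ≤ T ^ k) ∧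
    (Matrix.of fun i j => io (M i j : K) : Matrix H H ℂ).charpoly.Separable ∧
    Pres (fun y => f y x) (Matrix.of fun i j => io (M i j : K))

end

/-- **Complex multiplication near a given point.** Let `U` be a nonempty connected open subset of
`ℂ ^ X`, and `F_j`, `j` in a finite set `J`, matrices of analytic functions on `U` with rows
indexed by `H` and `r j` columns (`f ⟨j, (m, c)⟩` is the entry `(m, c)` of `F_j`; e.g. bases of the pieces of the
Hodge filtration in a flat basis). Assume that the elements of the field generated by `x` and the entries which are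
algebraic over `ℂ(x)` are in `ℂ(x)` (`RegularM`), and let `Γ` be a subgroup of `GL_H(ℂ)` such that all polynomial
relations over `ℂ[x]` between the entries of the `F_j` on `U` are relations between the entries of the matrices
`γ F_j`, for all `γ ∈ Γ` (`MonInv`; e.g. the monodromy group). Let `L` be a number field with an embedding in `ℂ`.
(1) For every `τ > 0` there is a set `E` of Hausdorff dimension at most `2 [L : ℚ] (|X| - 1) / τ` such that for all `ξ`
in `U` outside `E`, all number fields `K` in `ℂ` which contain `L`, all `k`, all `C` and all large `T`: ALL points `s`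
with coordinates in `L` of height at most `T` at distance at most `C T ^ (-τ)` from `ξ` are in `U`, there is no matrix
as in `ExtraEnd`, and if `Γ` is infinite and for every `x ∈ U` only finitely many elements of `Γ` preserve the column
spaces of all `F_j(x)`, then `s` is no point as in `SmallCM`.
(2) If `|X| = 1`, then there is one set `E` of Hausdorff dimension zero with this property for all `τ > 0`. -/
theorem result (X H J : Type) [Fintype X] [DecidableEq X] [Nonempty X] [Fintype H] [DecidableEq H] [Fintype J]
    [DecidableEq J] (r : J → ℕ) (U : Set (X → ℂ)) (f : Sg H J r → (X → ℂ) → ℂ)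
    (hU : IsPreconnected U) (hUo : IsOpen U) (hne : U.Nonempty) (hf : ∀ i, AnalyticOnNhd ℂ (f i) U)
    (hreg : RegularM U f) (Γ : Subgroup (GL H ℂ)) (hΓ : ∀ γ ∈ Γ, MonInv U f (γ : Matrix H H ℂ))
    (L : Type) [Field L] [NumberField L] (io : L →+* ℂ) :
    (∀ τ : ℝ, 0 < τ → ∃ E : Set (X → ℂ),
      dimH E ≤ ENNReal.ofReal (2 * (Module.finrank ℚ L : ℝ) * ((Fintype.card X : ℝ) - 1) / τ) ∧
      ∀ ξ ∈ U, ξ ∉ E → ∀ (K : IntermediateField ℚ ℂ) [NumberField K], (∀ x, io x ∈ K) →
        ∀ (k : ℕ) (C : ℝ), ∃ T₁ : ℝ, ∀ T : ℝ, T₁ ≤ T → ∀ s : X → L,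
          (∀ j, Y120.HtLe L T (s j)) → (∀ j, ‖ξ j - io (s j)‖ ≤ C * T ^ (-τ)) →
            (fun j => io (s j)) ∈ U ∧ ¬ ExtraEnd f Γ K (algebraMap K ℂ) k T (fun j => io (s j)) ∧
            (Infinite Γ → (∀ x ∈ U, (Stab Γ fun y => f y x).Finite) →
              ¬ SmallCM f K (algebraMap K ℂ) k T (fun j => io (s j)))) ∧
    (Fintype.card X = 1 → ∃ E : Set (X → ℂ), dimH E = 0 ∧
      ∀ ξ ∈ U, ξ ∉ E → ∀ (K : IntermediateField ℚ ℂ) [NumberField K], (∀ x, io x ∈ K) →
        ∀ (k : ℕ) (τ C : ℝ), 0 < τ → ∃ T₁ : ℝ, ∀ T : ℝ, T₁ ≤ T → ∀ s : X → L,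
          (∀ j, Y120.HtLe L T (s j)) → (∀ j, ‖ξ j - io (s j)‖ ≤ C * T ^ (-τ)) →
            (fun j => io (s j)) ∈ U ∧ ¬ ExtraEnd f Γ K (algebraMap K ℂ) k T (fun j => io (s j)) ∧
            (Infinite Γ → (∀ x ∈ U, (Stab Γ fun y => f y x).Finite) →
              ¬ SmallCM f K (algebraMap K ℂ) k T (fun j => io (s j)))) := by
  have hcov := N603.DB.vh_cov hU hUo hne hf hreg Γ hΓ
  refine ⟨fun τ hτ => ?_, fun hX => ?_⟩
  · obtain ⟨E, hE, h⟩ := hcov.near_all L io τ hτ
    refine ⟨E, hE, fun ξ hξ hξE K _ hLK k C => ?_⟩
    obtain ⟨T₁, hT₁⟩ := h ξ hξ hξE K hLK k C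
    refine ⟨T₁, fun T hT s hs hd => ?_⟩
    obtain ⟨h1, h2⟩ := hT₁ T hT s hs hd
    exact ⟨h1, h2, fun hinf hst hcm => h2 (N603.DB.cm_extra Γ hinf hst K _ k _ _ h1 hcm)⟩
  · obtain ⟨E, hE, h⟩ := hcov.near_zero hX L io
    refine ⟨E, hE, fun ξ hξ hξE K _ hLK k τ C hτ => ?_⟩
    obtain ⟨T₁, hT₁⟩ := h ξ hξ hξE K hLK k τ C hτ
    refine ⟨T₁, fun T hT s hs hd => ?_⟩
    obtain ⟨h1, h2⟩ := hT₁ T hT s hs hd
    exact ⟨h1, h2, fun hinf hst hcm => h2 (N603.DB.cm_extra Γ hinf hst K _ k _ _ h1 hcm)⟩

end Pool.Agent.Results.MP_2794d1_ag.NearEveryPoint
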