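import Pool.Agent.N603.DB.VH

/-!
# Points with complex multiplication in random sets of algebraic points

Let `F_j` be matrices of analytic functions on a connected open subset `U` of `ℂ ^ X`, for example bases of the pieces
of the Hodge filtration of a variation of Hodge structure in a flat basis, `Γ` the monodromy group, `K` a number field
in `ℂ` and `A` a random set of `K`-rational points which contains each point `s` with probability
`O (H (s) ^ (-γ))`, for some `γ > 2 [K : ℚ] (|X| - 1)` (`γ > 0` if there is one parameter; note that there are about
`T ^ (2 [K : ℚ] |X|)` points of height at most `T`, so that `A` is infinite for `γ < 2 [K : ℚ] |X|` if this is the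
order of the probability). We show: almost surely, for all `k` and all compact subsets of `U` at once, there are only
finitely many points `s` with complex multiplication of size at most `H (s) ^ k` in `A`, and only finitely many points
with an endomorphism of this size some conjugate of which under the monodromy is not an endomorphism. No independence
of the events `s ∈ A` is assumed.

Question Q1 asks in the case of families with few points with complex multiplication whether they lie in a proper
algebraic subset, for example whether there are only finitely many if there is one parameter.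

Proof. The points of height at most `T` with such an endomorphism lie on `O(T ^ ε)` hypersurfaces of bounded degree,
for every `ε > 0` (starting files `Pool.Agent.Y890.VH`), hence their number is `O(T ^ (2 [K : ℚ] (|X| - 1) + ε))`, and
the sum of the probabilities converges.
-/

set_option autoImplicit false
set_option linter.unusedSectionVars false

open NumberField MeasureTheory

namespace Pool.Agent.Results.MP_2794d1_ag.RandomPoints

open Pool.Agent Pool.Agent.Y890.MV Pool.Agent.Y890.VH

/-- the height of a tuple `s` of elements of `K`: one plus the least natural number `n` such that all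
`s j` are quotients of integers of `K` all of whose conjugates have absolute value at most `n` -/
noncomputable def height {X : Type} {K : Type} [Field K] [NumberField K] (s : X → K) : ℕ :=
  sInf {n : ℕ | ∀ j, Y120.HtLe K (n : ℝ) (s j)} + 1

section

variable {H J : Type} [Fintype H] [DecidableEq H] [Fintype J] [DecidableEq J] {r : J → ℕ}
  {X : Type} [Fintype X] [DecidableEq X]

/-- there is a matrix `M` with entries in the integers of `K`, all conjugates of which are at most `T ^ k`, which
preserves the column spaces of all `F_j(x)`, but not those of all `γ F_j(x)`, `γ ∈ Γ` -/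
def ExtraEnd (f : Sg H J r → (X → ℂ) → ℂ) (Γ : Subgroup (GL H ℂ)) (K : Type) [Field K] [NumberField K]
    (io : K →+* ℂ) (k : ℕ) (T : ℝ) (x : X → ℂ) : Prop :=
  ∃ M : Matrix H H (𝓞 K), (∀ i j (φ : K →+* ℂ), ‖φ (M i j : K)‖ ≤ T ^ k) ∧
    Pres (fun y => f y x) (Matrix.of fun i j => io (M i j : K)) ∧
    ∃ γ ∈ Γ, ¬ Pres (act (γ : Matrix H H ℂ) fun y => f y x) (Matrix.of fun i j => io (M i j : K))

/-- there is such a matrix with distinct eigenvalues which preserves the column spaces of all `F_j(x)` -/
def SmallCM (f : Sg H J r → (X → ℂ) → ℂ) (K : Type) [Field K] [NumberField K]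
    (io : K →+* ℂ) (k : ℕ) (T : ℝ) (x : X → ℂ) : Prop :=
  ∃ M : Matrix H H (𝓞 K), (∀ i j (φ : K →+* ℂ), ‖φ (M i j : K)‖ ≤ T ^ k) ∧
    (Matrix.of fun i j => io (M i j : K) : Matrix H H ℂ).charpoly.Separable ∧
    Pres (fun y => f y x) (Matrix.of fun i j => io (M i j : K))

end

/-- **Complex multiplication in random sets.** Let `U` be a nonempty connected open subset of
`ℂ ^ X`, and `F_j`, `j` in a finite set `J`, matrices of analytic functions on `U` with rows
indexed by `H` and `r j` columns (`f ⟨j, (m, c)⟩` is the entry `(m, c)` of `F_j`; e.g. bases of the pieces of the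
Hodge filtration in a flat basis). Assume that the elements of the field generated by `x` and the entries which are
algebraic over `ℂ(x)` are in `ℂ(x)` (`RegularM`), and let `Γ` be a subgroup of `GL_H(ℂ)` such that all polynomial
relations over `ℂ[x]` between the entries of the `F_j` on `U` are relations between the entries of the matrices
`γ F_j`, for all `γ ∈ Γ` (`MonInv`; e.g. the monodromy group). Let `K` be a number field with an embedding in `ℂ`,
`c > 2 [K : ℚ] (|X| - 1)` and `A` a random set of `K`-rational points with `P (s ∈ A) ≤ C (height s) ^ (-c)` for all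
`s`. Then almost surely for all `k` and all compact subsets `S` of `U` there are only finitely many `s ∈ A` in `S` with
a matrix as in `ExtraEnd`, and if `Γ` is infinite and for every `x ∈ U` only finitely many elements of `Γ` preserve
the column spaces of all `F_j(x)`, then there are only finitely many `s ∈ A` in `S` as in `SmallCM`, for the bound
`(height s) ^ k`. -/
theorem result (X H J : Type) [Fintype X] [DecidableEq X] [Nonempty X] [Fintype H] [DecidableEq H] [Fintype J]
    [DecidableEq J] (r : J → ℕ) (U : Set (X → ℂ)) (f : Sg H J r → (X → ℂ) → ℂ)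
    (hU : IsPreconnected U) (hUo : IsOpen U) (hne : U.Nonempty) (hf : ∀ i, AnalyticOnNhd ℂ (f i) U)
    (hreg : RegularM U f) (Γ : Subgroup (GL H ℂ)) (hΓ : ∀ γ ∈ Γ, MonInv U f (γ : Matrix H H ℂ))
    (K : Type) [Field K] [NumberField K] (io : K →+* ℂ) (c : ℝ)
    (hc : 2 * (Module.finrank ℚ K : ℝ) * ((Fintype.card X : ℝ) - 1) < c)
    (Ω : Type) [MeasurableSpace Ω] (P : Measure Ω) (A : Ω → Set (X → K)) (C : ℝ)
    (hA : ∀ s : X → K, P {ω | s ∈ A ω} ≤ ENNReal.ofReal (C * (height s : ℝ) ^ (-c))) :
    ∀ᵐ ω ∂P, ∀ (k : ℕ) (S : Set (X → ℂ)), IsCompact S → S ⊆ U →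
      {s : X → K | s ∈ A ω ∧ (fun j => io (s j)) ∈ S ∧
        ExtraEnd f Γ K io k (height s : ℝ) (fun j => io (s j))}.Finite ∧
      (Infinite Γ → (∀ x ∈ U, (Stab Γ fun y => f y x).Finite) →
        {s : X → K | s ∈ A ω ∧ (fun j => io (s j)) ∈ S ∧
          SmallCM f K io k (height s : ℝ) (fun j => io (s j))}.Finite) := by
  filter_upwards [(N603.DB.vh_cov hU hUo hne hf hreg Γ hΓ).random K io hc hA] with ω hω k S hS hSU
  have h1 := hω k S hS hSU
  refine ⟨h1, fun hinf hst => h1.subset ?_⟩
  rintro s ⟨h2, h3, h4⟩
  exact ⟨h2, h3, N603.DB.cm_extra Γ hinf hst K io k _ _ (hSU h3) h4⟩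

end Pool.Agent.Results.MP_2794d1_ag.RandomPoints
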