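import Pool.Agent.N603.DB.VH

/-!
# Points with complex multiplication, additional endomorphisms and denominators of good approximations

Let `S` be the base of a variation of Hodge structure with one parameter, `U` an open subset of `S` in the line over
which the pieces of the Hodge filtration are given, in a flat basis, by the column spaces of matrices `F_j` of analytic
functions, and `Γ` the monodromy group. Let
`α_1, …, α_m` be real numbers. We consider the natural numbers `q` with `‖q α_j - β_j‖ ≤ C q^(-τ)` for all `j`,
`‖x‖` the distance to the nearest integer; for `β = 0`, `C = 1`, `τ = 1 / m` these include the denominators of all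
best simultaneous approximations (the denominators of the convergents for `m = 1`). They form a very sparse sequence,
with gaps growing exponentially for almost all `α` if `τ = 1 / m`. Let `G` be a function with steps bounded below by a
positive constant and growth at most `v^e`, for example `a v^e`. We show: for all
`α` in `ℝ^m` outside a set of Hausdorff dimension at most `(m + κ) / (1 + τ)`, for all number fields `K` in `ℂ`, all
`k` and all compact subsets `C₀` of `U`: for all but finitely many of these `q`, NO point `x ∈ C₀` with coordinate in
`K` and a height `T` within `q^κ` of `G q` has an endomorphism with entries in the integers of `K` of size at most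
`T ^ k` some conjugate of which under the monodromy is not an endomorphism. In particular none of these points
is a point with complex multiplication by an endomorphism of this size with distinct eigenvalues, if `Γ` is infinite
and only finitely many of its elements preserve the filtration at any given point. For `τ = 1 / m` and `κ < 1` the
bound is less than `m`, so that the statement holds for almost all `α`.

Question Q1 asks in this case (if the generic Hodge datum is not a Shimura datum or the period map is not algebraic
and dominant) whether there are only finitely many points with complex multiplication, without a bound for the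
endomorphisms.

Proof. The exceptional points of height at most `T` at their own height are `O(T^ε)` in number for every `ε > 0` (the
covering theorem of the starting files `Pool.Agent.Y890.VH`); the `q` for which an exceptional point has a height near
`G q` form a set with `O(X^(κ + ε))` elements up to `X`, and the `α` with infinitely many approximations with
denominators in such a set are covered by few small cubes (`Pool.Agent.N671.DA`). There are only countably many number
fields in `ℂ`.
-/

set_option autoImplicit false
set_option linter.unusedSectionVars false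

open NumberField

namespace Pool.Agent.Results.MP_2794d1_ag.SimultaneousApproximations

open Pool.Agent Pool.Agent.Y890.MV Pool.Agent.Y890.VH
open Pool.Agent.N671.DA (Solves Expanding expanding_pow)

/-- The height of `x`: the least `T` such that `x` is a quotient of two integers of `K` all of whose conjugates have
absolute value at most `T`. -/
noncomputable def height (K : Type) [Field K] [NumberField K] (x : K) : ℝ := sInf {T : ℝ | Y120.HtLe K T x}

section

variable {H J : Type} [Fintype H] [DecidableEq H] [Fintype J] [DecidableEq J] {r : J → ℕ}
  {X : Type} [Fintype X] [DecidableEq X]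

/-- there is a matrix `M` with entries in the integers of `K`, all conjugates of which are at most `T ^ k`, which
preserves the column spaces of all `F_j(x)`, but not those of all `γ F_j(x)`, `γ ∈ Γ` -/
def ExtraEnd (f : Sg H J r → (X → ℂ) → ℂ) (Γ : Subgroup (GL H ℂ)) (K : Type) [Field K] [NumberField K]
    (io : K →+* ℂ) (k : ℕ) (T : ℝ) (x : X → ℂ) : Prop :=
  ∃ M : Matrix H H (𝓞 K), (∀ i j (φ : K →+* ℂ), ‖φ (M i j : K)‖ ≤ T ^ k) ∧
    Pres (fun y => f y x) (Matrix.of fun i j => io (M i j : K)) ∧
    ∃ γ ∈ Γ, ¬ Pres (act (γ : Matrix H H ℂ) fun y => f y x) (Matrix.of fun i j => io (M i j : K))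

/-- there is such a matrix with distinct eigenvalues which preserves the column spaces of all `F_j(x)` -/
def SmallCM (f : Sg H J r → (X → ℂ) → ℂ) (K : Type) [Field K] [NumberField K]
    (io : K →+* ℂ) (k : ℕ) (T : ℝ) (x : X → ℂ) : Prop :=
  ∃ M : Matrix H H (𝓞 K), (∀ i j (φ : K →+* ℂ), ‖φ (M i j : K)‖ ≤ T ^ k) ∧
    (Matrix.of fun i j => io (M i j : K) : Matrix H H ℂ).charpoly.Separable ∧
    Pres (fun y => f y x) (Matrix.of fun i j => io (M i j : K))

end

/-- **Complex multiplication and denominators of good approximations.** Let `U` be a nonempty connected open subset of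
the line `ℂ ^ X`, `|X| = 1`, and `F_j`, `j` in a finite set `J`, matrices of analytic functions on `U` with rows
indexed by `H` and `r j` columns (`f ⟨j, (m, c)⟩` is the entry `(m, c)` of `F_j`; e.g. bases of the pieces of the
Hodge filtration in a flat basis). Assume that the elements of the field generated by `x` and the entries which are
algebraic over `ℂ(x)` are in `ℂ(x)` (`RegularM`), and let `Γ` be a subgroup of `GL_H(ℂ)` such that all polynomial
relations over `ℂ[x]` between the entries of the `F_j` on `U` are relations between the entries of the matrices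
`γ F_j`, for all `γ ∈ Γ` (`MonInv`; e.g. the monodromy group). Let `G` have steps `≥ a > 0` and growth at most `v^e`,
`0 ≤ κ ≤ 1`, `β` in `ℝ^m` and `τ > 0`. There is a set `E` in `ℝ^m` of Hausdorff dimension at most
`(m + κ) / (1 + τ)` such that for all `α` outside `E`, all number fields `K` in `ℂ`, all `k`, all compact subsets `S`
of `U`, all `C` and all large `q` with `‖q α_j - β_j‖ ≤ C q^(-τ)` for all `j`: for ALL `x` in `K` in `S` with
`|height x - G q| ≤ q^κ` there is no matrix as in `ExtraEnd`, and if `Γ` is infinite and for every `x ∈ U` only
finitely many elements of `Γ` preserve the column spaces of all `F_j(x)`, then `x` is no point as in `SmallCM`, for the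
bound `(height x) ^ k`. The infimum in the definition of the height is a minimum, and the functions `a v^e` with
`a > 0`, `e ≥ 1` are examples of `G`. -/
theorem result :
    (∀ (X H J : Type) [Fintype X] [DecidableEq X] [Nonempty X] [Fintype H] [DecidableEq H] [Fintype J]
      [DecidableEq J] (r : J → ℕ) (U : Set (X → ℂ)) (f : Sg H J r → (X → ℂ) → ℂ), Fintype.card X = 1 →
      IsPreconnected U → IsOpen U → U.Nonempty → (∀ i, AnalyticOnNhd ℂ (f i) U) → RegularM U f →
      ∀ Γ : Subgroup (GL H ℂ), (∀ γ ∈ Γ, MonInv U f (γ : Matrix H H ℂ)) →
      ∀ (G : ℕ → ℝ) (e : ℝ), Expanding G e → ∀ κ : ℝ, 0 ≤ κ → κ ≤ 1 →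
      ∀ (m : ℕ) (β : Fin m → ℝ) (τ : ℝ), 0 < τ →
      ∃ E : Set (Fin m → ℝ), dimH E ≤ ENNReal.ofReal ((m + κ) / (1 + τ)) ∧
        ∀ α, α ∉ E → ∀ (K : IntermediateField ℚ ℂ) [NumberField K] (k : ℕ) (S : Set (X → ℂ)), IsCompact S → S ⊆ U →
          ∀ C : ℝ, ∃ Q : ℕ, ∀ q : ℕ, Q ≤ q → Solves α β q (C * (q : ℝ) ^ (-τ)) →
            ∀ x : K, (fun _ : X => (x : ℂ)) ∈ S → |height K x - G q| ≤ (q : ℝ) ^ κ →
              ¬ ExtraEnd f Γ K (algebraMap K ℂ) k (height K x) (fun _ => (x : ℂ)) ∧
              (Infinite Γ → (∀ x ∈ U, (Stab Γ fun y => f y x).Finite) →
                ¬ SmallCM f K (algebraMap K ℂ) k (height K x) (fun _ => (x : ℂ)))) ∧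
    (∀ (K : Type) [Field K] [NumberField K] (x : K) (T : ℝ), height K x ≤ T ↔ Y120.HtLe K T x) ∧
    ∀ a e : ℝ, 0 < a → 1 ≤ e → Expanding (fun v => a * (v : ℝ) ^ e) e := by
  refine ⟨fun X H J _ _ _ _ _ _ _ r U f hX hU hUo hne hf hreg Γ hΓ G e hG κ hκ hκ1 m β τ hτ => ?_,
    fun K _ _ x T => N603.DB.hgt_le_iff K x T, fun a e ha he => expanding_pow ha he⟩
  obtain ⟨E, hE, h⟩ := (N603.DB.vh_cov hU hUo hne hf hreg Γ hΓ).da hX hG hκ hκ1 β hτ
  refine ⟨E, hE, fun α hα K _ k S hS hSU C => ?_⟩
  obtain ⟨Q, hQ⟩ := h α hα K k S hS hSU C
  refine ⟨Q, fun q hq hs x hx hG' => ?_⟩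
  have h1 := hQ q hq hs x hx hG'
  refine ⟨h1, fun hinf hst hcm => h1 ?_⟩
  exact N603.DB.cm_extra Γ hinf hst K _ k _ _ (hSU hx) hcm

end Pool.Agent.Results.MP_2794d1_ag.SimultaneousApproximations
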